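import Pool.Agent.H33.PQ.PA
import Pool.Agent.H49.PQ.Run

/-!
There are finite pairwise coprime sets `P`, `Q` of integers `≥ 2`, each with at least two
elements, such that `S(P) S(Q) = 1`, where `S(A)` is the sum of the reciprocals of the elements of
`A`.

The largest elements of the sets have more than `2 ^ 600` decimal digits. They are not written
down; they are determined by the list of the numerators
`k = b d - a c` (`S(P) = a / b`, `S(Q) = c / d`) during the construction, and all divisibilities
and coprimalities are checked by computations modulo the product of these numerators.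
-/

namespace Pool.Agent.Results.MP_950c07_nt.ImplicitCertificate

open Pool.Agent.H49.PQ

theorem result : ∃ P Q : Finset ℕ, 2 ≤ P.card ∧ 2 ≤ Q.card ∧ (∀ x ∈ P, 2 ≤ x) ∧
    (∀ x ∈ Q, 2 ≤ x) ∧ (∀ x ∈ P, ∀ y ∈ P, x ≠ y → Nat.Coprime x y) ∧
    (∀ x ∈ Q, ∀ y ∈ Q, x ≠ y → Nat.Coprime x y) ∧
    (∑ x ∈ P, (1 : ℚ) / x) * (∑ y ∈ Q, (1 : ℚ) / y) = 1 := by
  refine Pool.Agent.H33.PQ.pf_ALL Pool.Agent.H33.PQ.pf_INI
    (Pool.Agent.H33.PQ.pf_CHK Pool.Agent.H33.PQ.pf_ADD
      (Pool.Agent.H33.PQ.pf_END Pool.Agent.H33.PQ.pf_ADD)) lp lq ks k₀ (by decide) (by decide)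
    (by decide) (by decide +kernel) (by decide +kernel) (by decide +kernel) (by decide +kernel)
    (by decide +kernel) chk_true

end Pool.Agent.Results.MP_950c07_nt.ImplicitCertificate
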